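import Mathlib

/-!
# Self-dual minor-closed classes containing all independence spaces (MP_cb2a9f_co, Q1)

The independence spaces (finitary matroids) together with their duals form an admissible system
that contains all independence spaces. It is the smallest such system, and on an infinite set it
misses some B-matroid, for example the direct sum of an infinite parallel class and an infinite
circuit. So Q1 is false for every infinite set `S`.
-/

set_option autoImplicit false

namespace Pool.Agent.Results.MP_cb2a9f_co.FinitaryCofinitary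

open Set
open scoped Matroid

universe u

variable {S : Type u}

/-- `I` is (the family of independent sets of) a pre-independence space on `W`. -/
structure IsPreIndepSpace (W : Set S) (I : Set (Set S)) : Prop where
  subset_ground : ∀ X ∈ I, X ⊆ W
  empty_mem : ∅ ∈ I
  mem_of_subset : ∀ X ∈ I, ∀ Y ⊆ X, Y ∈ I
  augment : ∀ X ∈ I, ∀ Y ∈ I, X.Finite → Y.Finite → X.ncard < Y.ncard →
    ∃ e ∈ Y \ X, X ∪ {e} ∈ I

/-- `I` is an independence space on `W`: a pre-independence space such that a set is in `I` as soon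
as all its finite subsets are. -/
structure IsIndepSpace (W : Set S) (I : Set (Set S)) : Prop extends IsPreIndepSpace W I where
  compact : ∀ Y ⊆ W, (∀ X ⊆ Y, X.Finite → X ∈ I) → Y ∈ I

/-- `B` is a basis of `I`, a maximal member of the family `I`. -/
def IsBasisOf (I : Set (Set S)) (B : Set S) : Prop := B ∈ I ∧ ∀ Y ∈ I, B ⊆ Y → Y = B

/-- The restriction of `I` to `Z`. -/
def restr (I : Set (Set S)) (Z : Set S) : Set (Set S) := {Y | Y ⊆ Z ∧ Y ∈ I}

/-- The contraction of `I` to `Z`, computed with the set `B` (a basis of the restriction of `I` to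
the complement of `Z`). -/
def contr (I : Set (Set S)) (Z B : Set S) : Set (Set S) := {Y | Y ⊆ Z ∧ Y ∪ B ∈ I}

/-- The dual of `I` on `W`. -/
def dual (W : Set S) (I : Set (Set S)) : Set (Set S) :=
  {X | X ⊆ W ∧ ∃ B, IsBasisOf I B ∧ B ⊆ W \ X}

/-- `I` is a B-matroid on `W`. -/
structure IsBMatroid (W : Set S) (I : Set (Set S)) : Prop where
  subset_ground : ∀ X ∈ I, X ⊆ W
  empty_mem : ∅ ∈ I
  mem_of_subset : ∀ X ∈ I, ∀ Y ⊆ X, Y ∈ I
  ib1 : ∀ X ⊆ W, ∀ T ∈ I, T ⊆ X → ∃ B, IsBasisOf (restr I X) B ∧ T ⊆ B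
  ib2 : ∀ X ⊆ W, ∀ B₁ B₂, IsBasisOf (restr I X) B₁ → IsBasisOf (restr I X) B₂ →
    ∀ x ∈ B₁ \ B₂, ∃ y ∈ B₂ \ B₁, IsBasisOf (restr I X) ((B₁ \ {x}) ∪ {y})

/-- `D` is an admissible system on the subsets of `S`. -/
structure IsAdmissible (D : Set S → Set (Set (Set S))) : Prop where
  pre : ∀ W, ∀ I ∈ D W, IsPreIndepSpace W I
  restr_mem : ∀ W, ∀ Z ⊆ W, ∀ I ∈ D W, restr I Z ∈ D Z
  exists_basis : ∀ W, ∀ Z ⊆ W, ∀ I ∈ D W, ∃ B, IsBasisOf (restr I (W \ Z)) B
  contr_eq : ∀ W, ∀ Z ⊆ W, ∀ I ∈ D W, ∀ B B', IsBasisOf (restr I (W \ Z)) B →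
    IsBasisOf (restr I (W \ Z)) B' → contr I Z B = contr I Z B'
  contr_mem : ∀ W, ∀ Z ⊆ W, ∀ I ∈ D W, ∀ B, IsBasisOf (restr I (W \ Z)) B → contr I Z B ∈ D Z
  dual_mem : ∀ W, ∀ I ∈ D W, dual W I ∈ D W
  dual_dual : ∀ W, ∀ I ∈ D W, dual W (dual W I) = I

/-- The system consisting of all independence spaces and their duals. -/
def sys (W : Set S) : Set (Set (Set S)) :=
  {I | IsIndepSpace W I ∨ ∃ J, IsIndepSpace W J ∧ I = dual W J}

/-! ### Translation to matroids -/

/-- the independent sets of a matroid -/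
def fam (M : Matroid S) : Set (Set S) := {X | M.Indep X}

theorem isBasisOf_fam (M : Matroid S) (B : Set S) : IsBasisOf (fam M) B ↔ M.IsBase B := by
  constructor
  · rintro ⟨h1, h2⟩
    obtain ⟨B', hB', hBB'⟩ := Matroid.Indep.exists_isBase_superset h1
    have := h2 B' hB'.indep hBB'
    rwa [← this]
  · intro h
    exact ⟨h.indep, fun Y hY hBY => (h.eq_of_subset_indep hY hBY).symm⟩

theorem restr_fam (M : Matroid S) (Z : Set S) : restr (fam M) Z = fam (M ↾ Z) := by
  ext X
  simp only [restr, fam, mem_ofPred_eq, Matroid.restrict_indep_iff]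
  tauto

theorem dual_fam (M : Matroid S) : dual M.E (fam M) = fam M✶ := by
  ext X
  simp only [dual, fam, mem_ofPred_eq]
  rw [show (∃ B, IsBasisOf {X | M.Indep X} B ∧ B ⊆ M.E \ X) ↔ ∃ B, M.IsBase B ∧ B ⊆ M.E \ X from
    exists_congr fun B => and_congr_left fun _ => isBasisOf_fam M B]
  constructor
  · rintro ⟨hX, B, hB, hBX⟩
    rw [Matroid.dual_indep_iff_exists']
    exact ⟨hX, B, hB, (subset_sdiff.1 hBX).2.symm⟩
  · intro h
    rw [Matroid.dual_indep_iff_exists'] at h
    obtain ⟨hX, B, hB, hd⟩ := h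
    exact ⟨hX, B, hB, subset_sdiff.2 ⟨hB.subset_ground, hd.symm⟩⟩

theorem isBasisOf_restr_fam (M : Matroid S) {Z : Set S} (hZ : Z ⊆ M.E) (B : Set S) :
    IsBasisOf (restr (fam M) Z) B ↔ M.IsBasis B Z := by
  rw [restr_fam, isBasisOf_fam, Matroid.isBase_restrict_iff hZ]

theorem contr_fam (M : Matroid S) (Z B : Set S)
    (hB : IsBasisOf (restr (fam M) (M.E \ Z)) B) : contr (fam M) Z B = fam (M ／ (M.E \ Z)) := by
  rw [isBasisOf_restr_fam M sdiff_subset] at hB
  ext X
  simp only [contr, fam, mem_ofPred_eq]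
  rw [hB.contract_indep_iff]
  constructor
  · rintro ⟨h1, h2⟩
    exact ⟨h2, disjoint_sdiff_left.mono_right h1⟩
  · rintro ⟨h1, h2⟩
    refine ⟨?_, h1⟩
    intro x hx
    by_contra hxZ
    exact h2.le_bot ⟨⟨(Matroid.Indep.subset_ground h1) (Or.inl hx), hxZ⟩, hx⟩

theorem isPreIndepSpace_fam (M : Matroid S) : IsPreIndepSpace M.E (fam M) where
  subset_ground X hX := Matroid.Indep.subset_ground hX
  empty_mem := M.empty_indep
  mem_of_subset X hX Y hY := Matroid.Indep.subset hX hY
  augment X hX Y hY hXf hYf hlt := by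
    have h : X.encard < Y.encard := by
      rw [← hXf.cast_ncard_eq, ← hYf.cast_ncard_eq]
      exact_mod_cast hlt
    obtain ⟨e, he, heX⟩ := Matroid.Indep.augment hX hY h
    exact ⟨e, he, by rw [union_singleton]; exact heX⟩

theorem isIndepSpace_fam (M : Matroid S) (hM : M.Finitary) : IsIndepSpace M.E (fam M) where
  toIsPreIndepSpace := isPreIndepSpace_fam M
  compact Y _ h := M.indep_of_forall_finite_subset_indep Y h

theorem exists_matroid {W : Set S} {I : Set (Set S)} (h : IsIndepSpace W I) :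
    ∃ M : Matroid S, M.E = W ∧ M.Finitary ∧ I = fam M := by
  let N : IndepMatroid S := IndepMatroid.ofFinitaryCardAugment W (fun X => X ∈ I) h.empty_mem
    (fun X Y hY hXY => h.mem_of_subset Y hY X hXY)
    (fun X Y hX hXf hY hYf hlt => by
      obtain ⟨e, he, heX⟩ := h.augment X hX Y hY hXf hYf hlt
      exact ⟨e, he.1, he.2, by rw [← union_singleton]; exact heX⟩)
    (fun X hX => by
      refine h.compact X ?_ hX
      intro x hx
      have := h.subset_ground _ (hX {x} (singleton_subset_iff.2 hx) (finite_singleton x))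
      exact this rfl)
    (fun X hX => h.subset_ground X hX)
  refine ⟨N.matroid, rfl, ?_, ?_⟩
  · exact IndepMatroid.ofFinitaryCardAugment_finitary _ _ _ _ _ _ _
  · rfl

theorem mem_sys_iff (W : Set S) (I : Set (Set S)) :
    I ∈ sys W ↔ ∃ M : Matroid S, M.E = W ∧ (M.Finitary ∨ M✶.Finitary) ∧ I = fam M := by
  constructor
  · rintro (h | ⟨J, h, rfl⟩)
    · obtain ⟨M, h1, h2, h3⟩ := exists_matroid h
      exact ⟨M, h1, Or.inl h2, h3⟩
    · obtain ⟨M, rfl, h2, rfl⟩ := exists_matroid h
      exact ⟨M✶, rfl, Or.inr (by rwa [Matroid.dual_dual]), dual_fam M⟩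
  · rintro ⟨M, rfl, h | h, rfl⟩
    · exact Or.inl (isIndepSpace_fam M h)
    · refine Or.inr ⟨fam M✶, isIndepSpace_fam M✶ h, ?_⟩
      have := dual_fam M✶
      rw [Matroid.dual_dual] at this
      exact this.symm

theorem isAdmissible_sys : IsAdmissible (sys : Set S → Set (Set (Set S))) where
  pre W I hI := by
    obtain ⟨M, rfl, -, rfl⟩ := (mem_sys_iff W I).1 hI
    exact isPreIndepSpace_fam M
  restr_mem W Z hZ I hI := by
    obtain ⟨M, rfl, hM, rfl⟩ := (mem_sys_iff W I).1 hI
    rw [mem_sys_iff]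
    refine ⟨M ↾ Z, rfl, ?_, restr_fam M Z⟩
    rcases hM with hM | hM
    · exact Or.inl inferInstance
    · right
      have h1 : (M ↾ Z)✶ = M✶ ／ (M.E \ Z) := by
        rw [← Matroid.dual_delete, Matroid.delete_eq_restrict, sdiff_sdiff_cancel_left hZ]
      rw [h1]
      infer_instance
  exists_basis W Z hZ I hI := by
    obtain ⟨M, rfl, -, rfl⟩ := (mem_sys_iff W I).1 hI
    obtain ⟨B, hB⟩ := M.exists_isBasis (M.E \ Z) sdiff_subset
    exact ⟨B, (isBasisOf_restr_fam M sdiff_subset B).2 hB⟩
  contr_eq W Z hZ I hI B B' hB hB' := by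
    obtain ⟨M, rfl, -, rfl⟩ := (mem_sys_iff W I).1 hI
    rw [contr_fam M Z B hB, contr_fam M Z B' hB']
  contr_mem W Z hZ I hI B hB := by
    obtain ⟨M, rfl, hM, rfl⟩ := (mem_sys_iff W I).1 hI
    rw [mem_sys_iff]
    refine ⟨M ／ (M.E \ Z), ?_, ?_, contr_fam M Z B hB⟩
    · rw [Matroid.contract_ground, sdiff_sdiff_cancel_left hZ]
    · rcases hM with hM | hM
      · exact Or.inl inferInstance
      · right
        rw [Matroid.dual_contract]
        infer_instance
  dual_mem W I hI := by
    obtain ⟨M, rfl, hM, rfl⟩ := (mem_sys_iff W I).1 hI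
    rw [mem_sys_iff]
    refine ⟨M✶, rfl, ?_, dual_fam M⟩
    rw [Matroid.dual_dual]
    exact hM.symm
  dual_dual W I hI := by
    obtain ⟨M, rfl, hM, rfl⟩ := (mem_sys_iff W I).1 hI
    rw [dual_fam]
    have := dual_fam M✶
    rwa [Matroid.dual_dual] at this

theorem isBMatroid_fam (M : Matroid S) : IsBMatroid M.E (fam M) where
  subset_ground X hX := Matroid.Indep.subset_ground hX
  empty_mem := M.empty_indep
  mem_of_subset X hX Y hY := Matroid.Indep.subset hX hY
  ib1 X hX T hT hTX := by
    obtain ⟨B, hB, hTB⟩ := Matroid.Indep.subset_isBasis_of_subset hT hTX hX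
    exact ⟨B, (isBasisOf_restr_fam M hX B).2 hB, hTB⟩
  ib2 X hX B₁ B₂ h₁ h₂ x hx := by
    rw [restr_fam, isBasisOf_fam] at h₁ h₂
    obtain ⟨y, hy, hy'⟩ := h₁.exchange h₂ hx
    refine ⟨y, hy, ?_⟩
    rw [restr_fam, isBasisOf_fam, union_singleton]
    exact hy'

/-! ### The example -/

/-- the rank one matroid without loops on `A` -/
noncomputable def rankOne (A : Set S) : Matroid S :=
  ((Matroid.freeOn (univ : Set Unit)).comap (fun _ : S => ())) ↾ A

theorem rankOne_indep (A X : Set S) : (rankOne A).Indep X ↔ X ⊆ A ∧ X.Subsingleton := by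
  unfold rankOne
  rw [Matroid.restrict_indep_iff, Matroid.comap_indep_iff, and_comm]
  refine and_congr_right fun _ => ?_
  simp only [Matroid.freeOn_indep_iff, subset_univ, true_and]
  constructor
  · intro h x hx y hy
    exact h hx hy rfl
  · intro h x hx y hy _
    exact h hx hy

theorem rankOne_isBase (A B : Set S) (hA : A.Nonempty) :
    (rankOne A).IsBase B ↔ ∃ a ∈ A, B = {a} := by
  rw [Matroid.isBase_iff_maximal_indep]
  constructor
  · intro h
    have h1 := (rankOne_indep A B).1 h.prop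
    rcases h1.2.eq_empty_or_singleton with h2 | ⟨a, h2⟩
    · obtain ⟨a, ha⟩ := hA
      have h3 : (rankOne A).Indep {a} :=
        (rankOne_indep A _).2 ⟨singleton_subset_iff.2 ha, subsingleton_singleton⟩
      have h4 := h.eq_of_subset h3 (by rw [h2]; exact empty_subset _)
      exact ⟨a, ha, h4⟩
    · exact ⟨a, h1.1 (by rw [h2]; rfl), h2⟩
  · rintro ⟨a, ha, rfl⟩
    refine ⟨(rankOne_indep A _).2 ⟨singleton_subset_iff.2 ha, subsingleton_singleton⟩, ?_⟩
    intro Y hY haY
    have h1 := (rankOne_indep A Y).1 hY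
    intro y hy
    exact h1.2 hy (haY rfl)

theorem rankOne_dual_indep (A X : Set S) (hA : A.Nonempty) :
    (rankOne A)✶.Indep X ↔ X ⊂ A := by
  rw [Matroid.dual_indep_iff_exists']
  constructor
  · rintro ⟨h1, B, hB, hd⟩
    obtain ⟨a, ha, rfl⟩ := (rankOne_isBase A B hA).1 hB
    refine ⟨h1, fun h => ?_⟩
    exact hd.le_bot ⟨h ha, rfl⟩
  · intro h
    obtain ⟨a, ha, haX⟩ := exists_of_ssubset h
    exact ⟨h.subset, {a}, (rankOne_isBase A _ hA).2 ⟨a, ha, rfl⟩, by simpa using haX⟩

/-- On every infinite set there is a matroid such that neither it nor its dual is finitary. -/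
theorem exists_neither (W : Set S) (hW : W.Infinite) :
    ∃ M : Matroid S, M.E = W ∧ ¬ M.Finitary ∧ ¬ M✶.Finitary := by
  obtain ⟨A, B, hAB, hd, hA, hB⟩ : ∃ A B : Set S, A ∪ B = W ∧ Disjoint A B ∧ A.Infinite ∧
      B.Infinite := by
    have := hW.to_subtype
    obtain ⟨f⟩ : Nonempty (W ≃ W ⊕ W) := by
      rw [← Cardinal.eq]
      simp
    refine ⟨Subtype.val '' (f ⁻¹' range Sum.inl), Subtype.val '' (f ⁻¹' range Sum.inr), ?_, ?_, ?_,
      ?_⟩
    · rw [← image_union, ← preimage_union, range_inl_union_range_inr, preimage_univ, image_univ,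
        Subtype.range_coe]
    · rw [disjoint_image_iff Subtype.val_injective]
      exact Disjoint.preimage _ isCompl_range_inl_range_inr.disjoint
    · refine Infinite.image Subtype.val_injective.injOn ?_
      refine Infinite.preimage (infinite_range_of_injective Sum.inl_injective) ?_
      rw [f.surjective.range_eq]
      exact subset_univ _
    · refine Infinite.image Subtype.val_injective.injOn ?_
      refine Infinite.preimage (infinite_range_of_injective Sum.inr_injective) ?_
      rw [f.surjective.range_eq]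
      exact subset_univ _
  have hAne := hA.nonempty
  have hBne := hB.nonempty
  obtain ⟨M, hME, hMi, hMb⟩ : ∃ M : Matroid S, M.E = A ∪ B ∧
      (∀ X, M.Indep X ↔ (rankOne A).Indep (X ∩ A) ∧ (rankOne B)✶.Indep (X ∩ B) ∧ X ⊆ A ∪ B) ∧
      ∀ X, M.IsBase X ↔ (rankOne A).IsBase (X ∩ A) ∧ (rankOne B)✶.IsBase (X ∩ B) ∧
        X ⊆ A ∪ B :=
    ⟨(rankOne A).disjointSum (rankOne B)✶ hd, Matroid.disjointSum_ground_eq,
      fun X => Matroid.disjointSum_indep_iff, fun X => Matroid.disjointSum_isBase_iff⟩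
  refine ⟨M, hME.trans hAB, ?_, ?_⟩
  · intro hfin
    have h1 : M.Indep B := by
      rw [Matroid.indep_iff_forall_finite_subset_indep]
      intro X hX hXf
      rw [hMi]
      refine ⟨?_, ?_, ?_⟩
      · rw [rankOne_indep]
        have : X ∩ A = ∅ := (hd.mono_right hX).symm.inter_eq
        rw [this]
        exact ⟨empty_subset _, subsingleton_empty⟩
      · rw [rankOne_dual_indep B _ hBne]
        refine ⟨inter_subset_right, fun h => ?_⟩
        exact hB (hXf.subset fun x hx => (h hx).1)
      · exact hX.trans subset_union_right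
    rw [hMi] at h1
    have h2 := h1.2.1
    rw [rankOne_dual_indep B _ hBne] at h2
    exact h2.2 fun x hx => ⟨hx, hx⟩
  · intro hfin
    have hco : ∀ X ⊆ A, (M✶.Indep X ↔ X ⊂ A) := by
      intro X hX
      rw [Matroid.dual_indep_iff_exists']
      constructor
      · rintro ⟨-, D, hD, hdis⟩
        refine ⟨hX, fun h => ?_⟩
        rw [hMb] at hD
        obtain ⟨a, ha, h3⟩ := (rankOne_isBase A _ hAne).1 hD.1
        have h4 : a ∈ D ∩ A := by rw [h3]; rfl
        exact hdis.le_bot ⟨h ha, h4.1⟩
      · intro h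
        obtain ⟨a, ha, haX⟩ := exists_of_ssubset h
        obtain ⟨D, hD⟩ := (rankOne B)✶.exists_isBase
        have hDB : D ⊆ B := hD.subset_ground
        refine ⟨by rw [hME]; exact hX.trans subset_union_left, {a} ∪ D, ?_, ?_⟩
        · rw [hMb]
          refine ⟨?_, ?_, ?_⟩
          · rw [rankOne_isBase A _ hAne]
            refine ⟨a, ha, ?_⟩
            rw [union_inter_distrib_right, (hd.mono_right hDB).symm.inter_eq, union_empty]
            exact inter_eq_left.2 (singleton_subset_iff.2 ha)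
          · have : ({a} ∪ D) ∩ B = D := by
              rw [union_inter_distrib_right, inter_eq_left.2 hDB]
              have : ({a} : Set S) ∩ B = ∅ :=
                (hd.mono_left (singleton_subset_iff.2 ha)).inter_eq
              rw [this, empty_union]
            rw [this]
            exact hD
          · exact union_subset_union (singleton_subset_iff.2 ha) hDB
        · rw [disjoint_union_right]
          exact ⟨by simpa using haX, hd.mono hX hDB⟩
    have h1 : M✶.Indep A := by
      rw [Matroid.indep_iff_forall_finite_subset_indep]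
      intro X hX hXf
      rw [hco X hX]
      exact ⟨hX, fun h => hA (hXf.subset h)⟩
    exact ((hco A Subset.rfl).1 h1).2 Subset.rfl

theorem finitary_of_finite (M : Matroid S) (h : M.E.Finite) : M.Finitary := by
  have : M.Finite := ⟨h⟩
  infer_instance

/-- **Q1 is false.** The independence spaces and their duals form an admissible system `sys`. It is
the smallest admissible system that contains all independence spaces, and for every infinite
`W` (for instance `W = S`) some B-matroid on `W` is not in `sys W`. -/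
theorem result (S : Type u) [Infinite S] :
    IsAdmissible (sys : Set S → Set (Set (Set S))) ∧
    (∀ (W : Set S) (I : Set (Set S)), IsIndepSpace W I → I ∈ sys W) ∧
    (∀ D : Set S → Set (Set (Set S)), IsAdmissible D →
      (∀ (W : Set S) (I : Set (Set S)), IsIndepSpace W I → I ∈ D W) → ∀ W, sys W ⊆ D W) ∧
    ∀ W : Set S, W.Infinite → ∃ I : Set (Set S), IsBMatroid W I ∧ I ∉ sys W := by
  refine ⟨isAdmissible_sys, fun W I h => Or.inl h, ?_, ?_⟩
  · rintro D hD hall W I (h | ⟨J, h, rfl⟩)
    · exact hall W I h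
    · exact hD.dual_mem W J (hall W J h)
  · intro W hW
    obtain ⟨M, rfl, h1, h2⟩ := exists_neither W hW
    refine ⟨fam M, isBMatroid_fam M, fun h => ?_⟩
    obtain ⟨N, hN, hN', hMN⟩ := (mem_sys_iff _ _).1 h
    have : N = M := by
      refine Matroid.ext_indep hN fun X _ => ?_
      have : X ∈ fam N ↔ X ∈ fam M := by rw [hMN]
      exact this
    rw [this] at hN'
    rcases hN' with h3 | h3
    · exact h1 h3
    · exact h2 h3

end Pool.Agent.Results.MP_cb2a9f_co.FinitaryCofinitary
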